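import Pool.Agent.U892.PD.Stm

set_option autoImplicit false

/-!
# Project PD, package CON2

Local pencils: if on the lines `y = a` the sum and the product of the two abscissas are
polynomials in `a` of the given form, then the leaves near `q` lie on conics of one pencil.
-/

open Filter Topology Set
open scoped ContDiff

namespace Pool.Agent.U978.PD

open Pool.Agent.U892.PD

noncomputable section

/-- coefficients of a quadratic polynomial after the affine substitution
`X = a 0 + a 1 p₁ + a 2 p₂`, `Y = b 0 + b 1 p₁ + b 2 p₂` -/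
def comp (A : Fin 6 → ℝ) (a b : Fin 3 → ℝ) : Fin 6 → ℝ :=
  ![A 0 + A 1 * a 0 + A 2 * b 0 + A 3 * a 0 ^ 2 + A 4 * (a 0 * b 0) + A 5 * b 0 ^ 2,
    A 1 * a 1 + A 2 * b 1 + 2 * A 3 * (a 0 * a 1) + A 4 * (a 0 * b 1 + a 1 * b 0) +
      2 * A 5 * (b 0 * b 1),
    A 1 * a 2 + A 2 * b 2 + 2 * A 3 * (a 0 * a 2) + A 4 * (a 0 * b 2 + a 2 * b 0) +
      2 * A 5 * (b 0 * b 2),
    A 3 * a 1 ^ 2 + A 4 * (a 1 * b 1) + A 5 * b 1 ^ 2,
    2 * A 3 * (a 1 * a 2) + A 4 * (a 1 * b 2 + a 2 * b 1) + 2 * A 5 * (b 1 * b 2),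
    A 3 * a 2 ^ 2 + A 4 * (a 2 * b 2) + A 5 * b 2 ^ 2]

lemma quad_comp (A : Fin 6 → ℝ) (a b : Fin 3 → ℝ) (p : ℝ × ℝ) :
    quad (comp A a b) p =
      quad A (a 0 + a 1 * p.1 + a 2 * p.2, b 0 + b 1 * p.1 + b 2 * p.2) := by
  unfold quad comp
  simp only [Matrix.cons_val]
  ring

/-- the first affine coordinate -/
def cx (o u w : ℝ × ℝ) (p : ℝ × ℝ) : ℝ :=
  ((p.1 - o.1) * w.2 - (p.2 - o.2) * w.1) / (u.1 * w.2 - u.2 * w.1)

/-- the second affine coordinate -/
def cy (o u w : ℝ × ℝ) (p : ℝ × ℝ) : ℝ :=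
  (u.1 * (p.2 - o.2) - u.2 * (p.1 - o.1)) / (u.1 * w.2 - u.2 * w.1)

/-- coefficients of the first coordinate -/
def ca (o u w : ℝ × ℝ) : Fin 3 → ℝ :=
  ![(-o.1 * w.2 + o.2 * w.1) / (u.1 * w.2 - u.2 * w.1), w.2 / (u.1 * w.2 - u.2 * w.1),
    -w.1 / (u.1 * w.2 - u.2 * w.1)]

/-- coefficients of the second coordinate -/
def cb (o u w : ℝ × ℝ) : Fin 3 → ℝ :=
  ![(-u.1 * o.2 + u.2 * o.1) / (u.1 * w.2 - u.2 * w.1), -u.2 / (u.1 * w.2 - u.2 * w.1),
    u.1 / (u.1 * w.2 - u.2 * w.1)]

lemma quad_cc (A : Fin 6 → ℝ) (o u w : ℝ × ℝ) (p : ℝ × ℝ) :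
    quad (comp A (ca o u w) (cb o u w)) p = quad A (cx o u w p, cy o u w p) := by
  rw [quad_comp]
  have h1 : ca o u w 0 + ca o u w 1 * p.1 + ca o u w 2 * p.2 = cx o u w p := by
    unfold ca cx
    simp only [Matrix.cons_val]
    ring
  have h2 : cb o u w 0 + cb o u w 1 * p.1 + cb o u w 2 * p.2 = cy o u w p := by
    unfold cb cy
    simp only [Matrix.cons_val]
    ring
  rw [h1, h2]

lemma cx_back (o u w : ℝ × ℝ) (hD : u.1 * w.2 - u.2 * w.1 ≠ 0) (x y : ℝ) :
    cx o u w (o + x • u + y • w) = x := by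
  unfold cx
  rw [div_eq_iff hD]
  simp only [Prod.fst_add, Prod.snd_add, Prod.smul_fst, Prod.smul_snd, smul_eq_mul]
  ring

lemma cy_back (o u w : ℝ × ℝ) (hD : u.1 * w.2 - u.2 * w.1 ≠ 0) (x y : ℝ) :
    cy o u w (o + x • u + y • w) = y := by
  unfold cy
  rw [div_eq_iff hD]
  simp only [Prod.fst_add, Prod.snd_add, Prod.smul_fst, Prod.smul_snd, smul_eq_mul]
  ring

lemma back (o u w : ℝ × ℝ) (hD : u.1 * w.2 - u.2 * w.1 ≠ 0) (p : ℝ × ℝ) :
    o + cx o u w p • u + cy o u w p • w = p := by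
  unfold cx cy
  ext
  · simp only [Prod.fst_add, Prod.smul_fst, smul_eq_mul]
    rw [add_assoc, div_mul_eq_mul_div, div_mul_eq_mul_div, ← add_div, ← eq_sub_iff_add_eq',
      div_eq_iff hD]
    ring
  · simp only [Prod.snd_add, Prod.smul_snd, smul_eq_mul]
    rw [add_assoc, div_mul_eq_mul_div, div_mul_eq_mul_div, ← add_div, ← eq_sub_iff_add_eq',
      div_eq_iff hD]
    ring

lemma continuous_cx (o u w : ℝ × ℝ) : Continuous (cx o u w) := by
  unfold cx
  fun_prop

lemma continuous_cy (o u w : ℝ × ℝ) : Continuous (cy o u w) := by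
  unfold cy
  fun_prop

theorem t_CON2 : S_CON2 := by
  intro F q o u w x₁ x₂ φ ψ hC hF hE
  obtain ⟨s₀, s₁, h₀, h₁, p₀, p₁, p₂, e₁, e₂, τ, hE⟩ := hE
  have hD := hC.basis
  set A : Fin 6 → ℝ := ![p₀, -s₀, p₁, 1, -s₁, p₂] with hA
  set B : Fin 6 → ℝ := ![1, -h₀, e₁, 0, -h₁, e₂] with hB
  have hqA : ∀ x y : ℝ, quad A (x, y) =
      x ^ 2 - (s₀ + s₁ * y) * x + (p₀ + p₁ * y + p₂ * y ^ 2) := by
    intro x y
    rw [hA]
    unfold quad
    simp only [Matrix.cons_val]
    ring
  have hqB : ∀ x y : ℝ, quad B (x, y) =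
      (1 + e₁ * y + e₂ * y ^ 2) - (h₀ + h₁ * y) * x := by
    intro x y
    rw [hB]
    unfold quad
    simp only [Matrix.cons_val]
    ring
  refine ⟨comp A (ca o u w) (cb o u w), comp B (ca o u w) (cb o u w), ?_, ?_⟩
  · rw [LinearIndependent.pair_iff]
    intro s t hst
    have key : ∀ x y : ℝ, s * quad A (x, y) + t * quad B (x, y) = 0 := by
      intro x y
      have h1 := quad_cc A o u w (o + x • u + y • w)
      have h2 := quad_cc B o u w (o + x • u + y • w)
      rw [cx_back o u w hD, cy_back o u w hD] at h1 h2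
      rw [← h1, ← h2]
      have h3 : ∀ i, s * comp A (ca o u w) (cb o u w) i +
          t * comp B (ca o u w) (cb o u w) i = 0 := by
        intro i
        have := congrFun hst i
        simpa using this
      have e0 := h3 0
      have e1 := h3 1
      have e2 := h3 2
      have e3 := h3 3
      have e4 := h3 4
      have e5 := h3 5
      generalize comp A (ca o u w) (cb o u w) = A' at *
      generalize comp B (ca o u w) (cb o u w) = B' at *
      generalize (o + x • u + y • w) = p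
      unfold quad
      linear_combination e0 + p.1 * e1 + p.2 * e2 + p.1 ^ 2 * e3 + (p.1 * p.2) * e4 +
        p.2 ^ 2 * e5
    have k0 := key 0 0
    have k1 := key 1 0
    have k2 := key (-1) 0
    rw [hqA, hqB] at k0 k1 k2
    have hs : s = 0 := by linarith
    refine ⟨hs, ?_⟩
    rw [hs] at k0
    linarith
  · have hqx : cx o u w q = x₁ ((0, 0), F q) := by
      have h := cx_back o u w hD (x₁ ((0, 0), F q)) 0
      rw [zero_smul, add_zero, hC.at_q] at h
      exact h
    have hqy : cy o u w q = 0 := by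
      have h := cy_back o u w hD (x₁ ((0, 0), F q)) 0
      rw [zero_smul, add_zero, hC.at_q] at h
      exact h
    have hc1 : Tendsto (fun p => (cx o u w p, cy o u w p)) (𝓝 q)
        (𝓝 ((x₁ ((0, 0), F q), 0) : ℝ × ℝ)) := by
      have h : Continuous (fun p => (cx o u w p, cy o u w p)) :=
        (continuous_cx o u w).prodMk (continuous_cy o u w)
      have h' := h.tendsto q
      rw [hqx, hqy] at h'
      exact h'
    have hc2 : Tendsto (fun p => (cy o u w p, F p)) (𝓝 q) (𝓝 ((0, F q) : ℝ × ℝ)) := by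
      have h : Tendsto (cy o u w) (𝓝 q) (𝓝 0) := by
        have h' := (continuous_cy o u w).tendsto q
        rw [hqy] at h'
        exact h'
      exact h.prodMk_nhds hF.tendsto
    have hP := hc1.eventually hC.param
    have hQ := hc2.eventually hE
    refine ⟨_, hP.and hQ, ?_⟩
    intro p hp
    refine ⟨1, τ (F p), Or.inl one_ne_zero, ?_⟩
    intro p' hp' hpp
    obtain ⟨hp1, hp2⟩ := hp'
    have hco : coord F o u w (cx o u w p', cy o u w p') = F p' := by
      unfold coord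
      rw [back o u w hD]
    have hx : x₁ ((cy o u w p', 0), F p') = cx o u w p' := by
      have := hp1
      simp only [hco] at this
      exact this
    obtain ⟨hS, hPr⟩ := hp2
    simp only at hS hPr
    rw [quad_cc, quad_cc, hqA, hqB, ← hpp]
    rw [hx] at hS hPr
    generalize x₂ ((cy o u w p', 0), F p') = X2 at *
    generalize cx o u w p' = X at *
    generalize cy o u w p' = Y at *
    generalize τ (F p') = T at *
    linear_combination X * hS - hPr

end

end Pool.Agent.U978.PD
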